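import Pool.Agent.Q109.RedBw.Defs

/-! Basic properties of bandwidth. -/

set_option autoImplicit false

namespace Q109.RedBw

open Finset

variable {V W : Type}

lemma bw_set_nonempty (V : Type) [Finite V] (G : SimpleGraph V) :
    {k : ℕ | ∃ σ : V ≃ Fin (Nat.card V), ∀ u v, G.Adj u v →
      |((σ u : ℕ) : ℤ) - ((σ v : ℕ) : ℤ)| ≤ (k : ℤ)}.Nonempty := by
  refine ⟨Nat.card V, Finite.equivFin V, ?_⟩
  intro u v _
  have h1 := (Finite.equivFin V u).isLt
  have h2 := (Finite.equivFin V v).isLt
  rw [abs_le]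
  omega

lemma exists_bw [Finite V] (G : SimpleGraph V) : ∃ σ : V ≃ Fin (Nat.card V), ∀ u v, G.Adj u v →
      |((σ u : ℕ) : ℤ) - ((σ v : ℕ) : ℤ)| ≤ (bwOf V G : ℤ) :=
  Nat.sInf_mem (bw_set_nonempty V G)

lemma bw_le_of_inj [Finite V] (G : SimpleGraph V) (κ : V → ℤ) (hκ : Function.Injective κ) {b : ℕ}
    (h : ∀ u v, G.Adj u v → κ u < κ v → κ v - κ u ≤ b) : bwOf V G ≤ b := by
  classical
  have := Fintype.ofFinite V
  set rk : V → ℕ := fun v => (univ.filter (fun w => κ w < κ v)).card with hrk
  have hlt : ∀ v, rk v < Nat.card V := by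
    intro v
    rw [Nat.card_eq_fintype_card, ← card_univ]
    apply card_lt_card
    rw [ssubset_iff_of_subset (filter_subset _ _)]
    exact ⟨v, mem_univ v, by simp⟩
  have hmono : ∀ u v, κ u < κ v → rk u < rk v := by
    intro u v huv
    apply card_lt_card
    rw [ssubset_iff_of_subset]
    · exact ⟨u, by simpa using huv, by simp⟩
    · intro w hw
      simp only [mem_filter, mem_univ, true_and] at hw ⊢
      omega
  have hdiff : ∀ u v, κ u < κ v → ((rk v : ℤ) - rk u) ≤ κ v - κ u := by
    intro u v huv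
    have h1 : univ.filter (fun w => κ w < κ v) ⊆
        univ.filter (fun w => κ w < κ u) ∪ univ.filter (fun w => κ u ≤ κ w ∧ κ w < κ v) := by
      intro w hw
      simp only [mem_union, mem_filter, mem_univ, true_and] at hw ⊢
      omega
    have h2 := (card_le_card h1).trans (card_union_le _ _)
    have h3 : (univ.filter (fun w => κ u ≤ κ w ∧ κ w < κ v)).card ≤ (Ico (κ u) (κ v)).card := by
      apply card_le_card_of_injOn κ
      · intro w hw
        simp only [coe_filter, mem_univ, true_and] at hw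
        rw [coe_Ico]
        exact hw
      · exact hκ.injOn
    rw [Int.card_Ico] at h3
    have h4 : rk v ≤ rk u + (κ v - κ u).toNat := h2.trans (by
      have : (univ.filter (fun w => κ w < κ u)).card = rk u := rfl
      omega)
    omega
  have hinj : Function.Injective (fun v => (⟨rk v, hlt v⟩ : Fin (Nat.card V))) := by
    intro u v huv
    have huv' : rk u = rk v := congrArg Fin.val huv
    rcases lt_trichotomy (κ u) (κ v) with h1 | h1 | h1
    · have := hmono u v h1; omega
    · exact hκ h1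
    · have := hmono v u h1; omega
  have hbij : Function.Bijective (fun v => (⟨rk v, hlt v⟩ : Fin (Nat.card V))) := by
    rw [Fintype.bijective_iff_injective_and_card]
    exact ⟨hinj, by rw [Fintype.card_fin, Nat.card_eq_fintype_card]⟩
  apply Nat.sInf_le
  refine ⟨Equiv.ofBijective _ hbij, ?_⟩
  intro u v huv
  simp only [Equiv.ofBijective_apply]
  rw [abs_le]
  rcases lt_trichotomy (κ u) (κ v) with h1 | h1 | h1
  · have a := hdiff u v h1
    have b := h u v huv h1
    have c := hmono u v h1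
    omega
  · exact absurd (hκ h1) huv.ne
  · have a := hdiff v u h1
    have b := h v u huv.symm h1
    have c := hmono v u h1
    omega

/-- bandwidth does not increase when passing to a subgraph -/
lemma bw_mono [Finite W] (G : SimpleGraph V) (H : SimpleGraph W) (φ : V → W)
    (hφ : Function.Injective φ) (h : ∀ x y, G.Adj x y → H.Adj (φ x) (φ y)) :
    bwOf V G ≤ bwOf W H := by
  have : Finite V := Finite.of_injective φ hφ
  obtain ⟨σ, hσ⟩ := exists_bw H
  apply bw_le_of_inj G (fun x => ((σ (φ x) : ℕ) : ℤ))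
  · intro x y hxy
    apply hφ
    apply σ.injective
    apply Fin.ext
    have h1 : ((σ (φ x) : ℕ) : ℤ) = ((σ (φ y) : ℕ) : ℤ) := hxy
    exact_mod_cast h1
  · intro u v huv _
    have h1 := hσ _ _ (h v u huv.symm)
    exact (le_abs_self _).trans h1

/-- adding an edge -/
lemma bw_edge [Finite V] (G : SimpleGraph V) (u v : V) :
    bwOf V G ≤ 2 * bwOf V (G.deleteEdges {s(u, v)}) + 1 := by
  obtain ⟨σ, hσ⟩ := exists_bw (G.deleteEdges {s(u, v)})
  set c : ℤ := ((σ u : ℕ) : ℤ) + ((σ v : ℕ) : ℤ) with hc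
  set s : V → ℤ := fun x => ((σ x : ℕ) : ℤ) with hs
  have hsinj : Function.Injective s := by
    intro x y hxy
    apply σ.injective
    apply Fin.ext
    have h1 : ((σ x : ℕ) : ℤ) = ((σ y : ℕ) : ℤ) := hxy
    exact_mod_cast h1
  set κ : V → ℤ := fun x => if c ≤ 2 * s x then 2 * s x - c else c - 2 * s x + 1 with hκ
  have hinj : Function.Injective κ := by
    intro x y hxy
    apply hsinj
    simp only [hκ] at hxy
    split_ifs at hxy with h1 h2 h2 <;> omega
  apply bw_le_of_inj G κ hinj
  intro x y hxy hlt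
  by_cases he : s(x, y) = s(u, v)
  · rw [Sym2.eq_iff] at he
    have hsu : s u = ((σ u : ℕ) : ℤ) := rfl
    have hsv : s v = ((σ v : ℕ) : ℤ) := rfl
    simp only [hκ] at hlt ⊢
    push_cast
    rcases he with ⟨rfl, rfl⟩ | ⟨rfl, rfl⟩ <;> split_ifs at hlt ⊢ with h1 h2 h2 <;> omega
  · have h1 : (G.deleteEdges {s(u, v)}).Adj x y := by
      rw [SimpleGraph.deleteEdges_adj]
      exact ⟨hxy, he⟩
    have h2 := hσ x y h1
    rw [abs_le] at h2
    have hsx : s x = ((σ x : ℕ) : ℤ) := rfl
    have hsy : s y = ((σ y : ℕ) : ℤ) := rfl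
    simp only [hκ] at hlt ⊢
    push_cast
    split_ifs at hlt ⊢ with h3 h4 h4 <;> omega

/-- adding an isolated vertex -/
lemma bw_isolated [Finite V] (G : SimpleGraph V) (v : V) (hv : ∀ w, ¬ G.Adj v w) :
    bwOf V G ≤ bwOf {x : V // x ≠ v} (G.induce {x : V | x ≠ v}) := by
  classical
  obtain ⟨σ, hσ⟩ := exists_bw (V := {x : V // x ≠ v}) (G.induce {x : V | x ≠ v})
  apply bw_le_of_inj G (fun x => if h : x ≠ v then ((σ ⟨x, h⟩ : ℕ) : ℤ) else -1)
  · intro x y hxy
    simp only at hxy
    by_cases hx : x ≠ v <;> by_cases hy : y ≠ v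
    · rw [dif_pos hx, dif_pos hy] at hxy
      have h1 : σ ⟨x, hx⟩ = σ ⟨y, hy⟩ := Fin.ext (by exact_mod_cast hxy)
      exact congrArg Subtype.val (σ.injective h1)
    · rw [dif_pos hx, dif_neg hy] at hxy; omega
    · rw [dif_neg hx, dif_pos hy] at hxy; omega
    · push Not at hx hy
      rw [hx, hy]
  · intro x y hxy hlt
    have hx : x ≠ v := by rintro rfl; exact hv _ hxy
    have hy : y ≠ v := by rintro rfl; exact hv _ hxy.symm
    rw [dif_pos hx, dif_pos hy]
    have h1 := hσ ⟨y, hy⟩ ⟨x, hx⟩ hxy.symm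
    exact (le_abs_self _).trans h1

lemma bw_sum [Finite V] [Finite W] (G : SimpleGraph V) (H : SimpleGraph W) :
    bwOf (V ⊕ W) (G ⊕g H) ≤ max (bwOf V G) (bwOf W H) := by
  obtain ⟨σ, hσ⟩ := exists_bw G
  obtain ⟨τ, hτ⟩ := exists_bw H
  apply bw_le_of_inj (G ⊕g H)
    (fun x => Sum.elim (fun a => ((σ a : ℕ) : ℤ)) (fun b => (Nat.card V : ℤ) + ((τ b : ℕ) : ℤ)) x)
  · rintro (a | b) (a' | b') h
    · simp only [Sum.elim_inl] at h
      rw [σ.injective (Fin.ext (by exact_mod_cast h) : σ a = σ a')]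
    · simp only [Sum.elim_inl, Sum.elim_inr] at h
      have := (σ a).isLt
      omega
    · simp only [Sum.elim_inl, Sum.elim_inr] at h
      have := (σ a').isLt
      omega
    · simp only [Sum.elim_inr] at h
      have h1 : ((τ b : ℕ) : ℤ) = ((τ b' : ℕ) : ℤ) := by omega
      rw [τ.injective (Fin.ext (by exact_mod_cast h1) : τ b = τ b')]
  · rintro (a | b) (a' | b') h hlt
    · rw [SimpleGraph.sum_adj_inl] at h
      have h1 := hσ a' a h.symm
      simp only [Sum.elim_inl]
      have h2 := (le_abs_self _).trans h1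
      push_cast
      exact h2.trans (le_max_left _ _)
    · exact absurd h (SimpleGraph.not_adj_sum_inl_inr _ _)
    · exact absurd h.symm (SimpleGraph.not_adj_sum_inl_inr _ _)
    · rw [SimpleGraph.sum_adj_inr] at h
      have h1 := hτ b' b h.symm
      simp only [Sum.elim_inr]
      have h2 := (le_abs_self _).trans h1
      push_cast
      refine le_trans ?_ (h2.trans (le_max_right _ _))
      omega

/-- a clique with `k + 2` vertices forces bandwidth greater than `k` -/
lemma bw_clique [Finite V] (G : SimpleGraph V) {k : ℕ} {K : Finset V} (hK : G.IsNClique (k + 2) K) :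
    k < bwOf V G := by
  classical
  obtain ⟨σ, hσ⟩ := exists_bw G
  rw [SimpleGraph.isNClique_iff] at hK
  have hne : K.Nonempty := card_pos.1 (by omega)
  obtain ⟨a, ha, hamin⟩ := K.exists_min_image (fun x => (σ x : ℕ)) hne
  obtain ⟨b, hb, hbmax⟩ := K.exists_max_image (fun x => (σ x : ℕ)) hne
  have h1 : K.card ≤ (Icc (σ a : ℕ) (σ b : ℕ)).card := by
    apply card_le_card_of_injOn (fun x => (σ x : ℕ))
    · intro x hx
      rw [coe_Icc]
      exact ⟨hamin x hx, hbmax x hx⟩
    · intro x _ y _ hxy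
      exact σ.injective (Fin.ext hxy)
  rw [Nat.card_Icc] at h1
  have hab : b ≠ a := by
    rintro rfl
    omega
  have h2 := hσ b a (hK.1 hb ha hab)
  have h3 := (le_abs_self _).trans h2
  omega

end Q109.RedBw
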