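import Mathlib

/-! Graph parameters, bandwidth, reduction sequences of trigraphs. -/

set_option autoImplicit false

namespace Q109.RedBw

/-- a graph parameter: an isomorphism-invariant map from finite graphs to the natural numbers (the
values at infinite graphs are irrelevant) -/
structure Param where
  /-- the value at a graph -/
  val : (V : Type) → SimpleGraph V → ℕ
  /-- isomorphism invariance -/
  iso : ∀ (V W : Type) (G : SimpleGraph V) (H : SimpleGraph W), Finite V → Nonempty (G ≃g H) →
    val V G = val W H

/-- `f ⪯ g`: `f` is bounded by a function of `g` on all finite graphs -/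
def Param.Below (f g : Param) : Prop :=
  ∃ h : ℕ → ℕ, ∀ (V : Type) (G : SimpleGraph V), Finite V → f.val V G ≤ h (g.val V G)

/-- `f ⪯ g` but not `g ⪯ f` -/
def Param.StrictlyBelow (f g : Param) : Prop := f.Below g ∧ ¬ g.Below f

/-- continuous parameters: adding an edge or an isolated vertex increases the value in a bounded
way -/
def Param.Continuous (f : Param) : Prop :=
  ∃ g : ℕ → ℕ,
    (∀ (V : Type) (G : SimpleGraph V), Finite V → ∀ u v, G.Adj u v →
      f.val V G ≤ g (f.val V (G.deleteEdges {s(u, v)}))) ∧
    (∀ (V : Type) (G : SimpleGraph V), Finite V → ∀ v : V, (∀ w, ¬ G.Adj v w) →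
      f.val V G ≤ g (f.val {x : V // x ≠ v} (G.induce {x : V | x ≠ v})))

/-- parameters that do not increase when passing to a subgraph -/
def Param.Monotone (f : Param) : Prop :=
  ∀ (V W : Type) (G : SimpleGraph V) (H : SimpleGraph W), Finite W →
    (∃ φ : V → W, Function.Injective φ ∧ ∀ x y, G.Adj x y → H.Adj (φ x) (φ y)) →
    f.val V G ≤ f.val W H

/-- parameters whose value at a disjoint union is the maximum of the two values -/
def Param.UnionClosed (f : Param) : Prop :=
  ∀ (V W : Type) (G : SimpleGraph V) (H : SimpleGraph W), Finite V → Finite W →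
    f.val (V ⊕ W) (G ⊕g H) = max (f.val V G) (f.val W H)

/-- the bandwidth -/
noncomputable def bwOf (V : Type) (G : SimpleGraph V) : ℕ :=
  sInf {k : ℕ | ∃ σ : V ≃ Fin (Nat.card V), ∀ u v, G.Adj u v →
    |((σ u : ℕ) : ℤ) - ((σ v : ℕ) : ℤ)| ≤ (k : ℤ)}

/-- a trigraph: vertices, black edges and red edges -/
structure Tri where
  /-- the vertices -/
  V : Type
  /-- the black edges -/
  black : SimpleGraph V
  /-- the red edges -/
  red : SimpleGraph V

/-- `T` is obtained from `S` by contracting the two vertices `u` and `v` (and renaming the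
vertices by `p`): the new vertex `p u = p v` and another vertex are non-adjacent if neither `u` nor
`v` is adjacent to it, joined by a black edge if both are by black edges, and by a red edge
otherwise; all other edges are kept. -/
def IsContraction (S T : Tri) : Prop :=
  ∃ (u v : S.V) (p : S.V → T.V), u ≠ v ∧ Function.Surjective p ∧
    (∀ x y, p x = p y ↔ x = y ∨ (x = u ∧ y = v) ∨ (x = v ∧ y = u)) ∧
    (∀ x y, x ≠ u → x ≠ v → y ≠ u → y ≠ v →
      (T.black.Adj (p x) (p y) ↔ S.black.Adj x y) ∧ (T.red.Adj (p x) (p y) ↔ S.red.Adj x y)) ∧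
    (∀ x, x ≠ u → x ≠ v →
      (T.black.Adj (p u) (p x) ↔ S.black.Adj u x ∧ S.black.Adj v x) ∧
      (T.red.Adj (p u) (p x) ↔
        (S.black.Adj u x ∨ S.red.Adj u x ∨ S.black.Adj v x ∨ S.red.Adj v x) ∧
        ¬ (S.black.Adj u x ∧ S.black.Adj v x)))

/-- the reduced `f` of `G` is at most `k`: some reduction sequence of `G` (from `G` without red
edges, by one contraction at a time, to a trigraph with one vertex) has all its red graphs of
`f`-value at most `k` -/
def ReducedLE (f : Param) (V : Type) (G : SimpleGraph V) (k : ℕ) : Prop :=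
  ∃ T : ℕ → Tri, T 0 = ⟨V, G, ⊥⟩ ∧ (∀ i, i + 1 < Nat.card V → IsContraction (T i) (T (i + 1))) ∧
    ∀ i, i < Nat.card V → f.val (T i).V (T i).red ≤ k

/-- the class `C` has bounded reduced `f` -/
def BoundedReduced (f : Param) (C : (V : Type) → SimpleGraph V → Prop) : Prop :=
  ∃ k, ∀ (V : Type) (G : SimpleGraph V), C V G → ReducedLE f V G k

end Q109.RedBw
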