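import Pool.Agent.Q109.RedBw.Pack

/-! A continuous parameter strictly above bandwidth that agrees with it up to a given value. -/

set_option autoImplicit false

namespace Q109.RedBw

open Finset

/-- bandwidth as a parameter -/
noncomputable def bandwidth : Param where
  val := bwOf
  iso := by
    intro V W G H hV ⟨e⟩
    have : Finite W := Finite.of_equiv V e.toEquiv
    apply le_antisymm
    · exact bw_mono G H e e.injective (fun x y h => e.map_adj_iff.2 h)
    · exact bw_mono H G e.symm e.symm.injective (fun x y h => e.symm.map_adj_iff.2 h)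

/-- the maximum of the bandwidth and the largest number of disjoint cliques with `k + 2` vertices
in one component -/
noncomputable def fk (k : ℕ) : Param where
  val := fun V G => max (bwOf V G) (nu k V G)
  iso := by
    intro V W G H hV ⟨e⟩
    have : Finite W := Finite.of_equiv V e.toEquiv
    apply le_antisymm
    · exact max_le_max (bw_mono G H e e.injective (fun x y h => e.map_adj_iff.2 h))
        (nu_mono k G H e e.injective (fun x y h => e.map_adj_iff.2 h))
    · exact max_le_max (bw_mono H G e.symm e.symm.injective (fun x y h => e.symm.map_adj_iff.2 h))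
        (nu_mono k H G e.symm e.symm.injective (fun x y h => e.symm.map_adj_iff.2 h))

lemma fk_val (k : ℕ) (V : Type) (G : SimpleGraph V) :
    (fk k).val V G = max (bwOf V G) (nu k V G) := rfl

lemma fk_continuous (k : ℕ) : (fk k).Continuous := by
  refine ⟨fun x => 3 * x + 1, ?_, ?_⟩
  · intro V G hV u v huv
    rw [fk_val, fk_val]
    have h1 := bw_edge G u v
    have h2 := nu_edge k G u v huv.ne
    have h3 := le_max_left (bwOf V (G.deleteEdges {s(u, v)})) (nu k V (G.deleteEdges {s(u, v)}))
    have h4 := le_max_right (bwOf V (G.deleteEdges {s(u, v)})) (nu k V (G.deleteEdges {s(u, v)}))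
    apply max_le <;> beta_reduce <;> omega
  · intro V G hV v hv
    rw [fk_val, fk_val]
    have h1 := bw_isolated G v hv
    have h2 := nu_isolated k G v hv
    have h3 := le_max_left (bwOf {x : V // x ≠ v} (G.induce {x : V | x ≠ v}))
      (nu k {x : V // x ≠ v} (G.induce {x : V | x ≠ v}))
    have h4 := le_max_right (bwOf {x : V // x ≠ v} (G.induce {x : V | x ≠ v}))
      (nu k {x : V // x ≠ v} (G.induce {x : V | x ≠ v}))
    apply max_le <;> beta_reduce <;> omega

lemma fk_monotone (k : ℕ) : (fk k).Monotone := by
  intro V W G H hW ⟨φ, hφ, h⟩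
  exact max_le_max (bw_mono G H φ hφ h) (nu_mono k G H φ hφ h)

lemma fk_union (k : ℕ) : (fk k).UnionClosed := by
  intro V W G H hV hW
  have hfin : Finite (V ⊕ W) := inferInstance
  apply le_antisymm
  · rw [fk_val, fk_val, fk_val]
    have h1 := bw_sum G H
    have h2 := nu_sum k G H
    apply max_le
    · exact h1.trans (max_le_max (le_max_left _ _) (le_max_left _ _))
    · exact h2.trans (max_le_max (le_max_right _ _) (le_max_right _ _))
  · apply max_le
    · exact fk_monotone k V (V ⊕ W) G (G ⊕g H) hfin
        ⟨Sum.inl, Sum.inl_injective, fun x y h => SimpleGraph.sum_adj_inl.2 h⟩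
    · exact fk_monotone k W (V ⊕ W) H (G ⊕g H) hfin
        ⟨Sum.inr, Sum.inr_injective, fun x y h => SimpleGraph.sum_adj_inr.2 h⟩

lemma fk_eq {k : ℕ} {V : Type} [Finite V] {G : SimpleGraph V} (h : bwOf V G ≤ k) :
    (fk k).val V G = bwOf V G := by
  rw [fk_val, nu_zero h]
  exact Nat.max_zero _

/-- the graph showing strictness: a power of a path -/
def power (k m : ℕ) : SimpleGraph (Fin m × Fin (k + 2)) where
  Adj x y := x ≠ y ∧
    (x.1.val * (k + 2) + x.2.val ≤ y.1.val * (k + 2) + y.2.val + (k + 1)) ∧
    (y.1.val * (k + 2) + y.2.val ≤ x.1.val * (k + 2) + x.2.val + (k + 1))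
  symm := ⟨fun _ _ h => ⟨h.1.symm, h.2.2, h.2.1⟩⟩
  loopless := ⟨fun _ h => h.1 rfl⟩

lemma power_bw (k m : ℕ) : bwOf _ (power k m) ≤ k + 1 := by
  apply bw_le_of_inj (power k m) (fun x => ((x.1.val * (k + 2) + x.2.val : ℕ) : ℤ))
  · rintro ⟨i, a⟩ ⟨j, b⟩ h
    have h0 : ((i.val * (k + 2) + a.val : ℕ) : ℤ) = ((j.val * (k + 2) + b.val : ℕ) : ℤ) := h
    have h1 : i.val * (k + 2) + a.val = j.val * (k + 2) + b.val := by exact_mod_cast h0
    have ha := a.isLt
    have hb := b.isLt
    have hij : i.val = j.val := by
      rcases lt_trichotomy i.val j.val with hlt | heq | hlt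
      · have := Nat.mul_le_mul_right (k + 2) (Nat.succ_le_of_lt hlt)
        rw [Nat.succ_mul] at this
        omega
      · exact heq
      · have := Nat.mul_le_mul_right (k + 2) (Nat.succ_le_of_lt hlt)
        rw [Nat.succ_mul] at this
        omega
    have hab : a.val = b.val := by rw [hij] at h1; omega
    exact Prod.ext (Fin.ext hij) (Fin.ext hab)
  · rintro x y h _
    have h1 := h.2.2
    have h2 : ((y.1.val * (k + 2) + y.2.val : ℕ) : ℤ) ≤
        ((x.1.val * (k + 2) + x.2.val + (k + 1) : ℕ) : ℤ) := by exact_mod_cast h1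
    push_cast at h2 ⊢
    linarith

lemma power_nu (k m : ℕ) : m ≤ nu k _ (power k m) := by
  classical
  set g : Fin m → Finset (Fin m × Fin (k + 2)) := fun i => univ.filter (fun x => x.1 = i) with hg
  have hmem : ∀ i x, x ∈ g i ↔ x.1 = i := by
    intro i x
    rw [hg]
    simp only [mem_filter, mem_univ, true_and]
  have hinj : Function.Injective g := by
    intro i j hij
    have h1 : ((i, 0) : Fin m × Fin (k + 2)) ∈ g j := by
      rw [← hij, hmem]
    rw [hmem] at h1
    exact h1
  have hc : (univ.image g).card = m := by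
    rw [card_image_of_injective _ hinj, card_univ, Fintype.card_fin]
  have hadj : ∀ i, ∀ x ∈ g i, ∀ y ∈ g i, x ≠ y → (power k m).Adj x y := by
    intro i x hx y hy hxy
    rw [hmem] at hx hy
    refine ⟨hxy, ?_, ?_⟩
    · rw [hx, hy]
      have := x.2.isLt
      omega
    · rw [hx, hy]
      have := y.2.isLt
      omega
  have hcard : ∀ i, (g i).card = k + 2 := by
    intro i
    have : g i = univ.image (fun a : Fin (k + 2) => (i, a)) := by
      ext x
      rw [hmem, mem_image]
      constructor
      · intro h
        exact ⟨x.2, mem_univ _, Prod.ext h.symm rfl⟩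
      · rintro ⟨a, _, rfl⟩
        rfl
    rw [this, card_image_of_injective, card_univ, Fintype.card_fin]
    intro a b hab
    exact (Prod.mk.inj hab).2
  have hrow : ∀ x y, x.1 = y.1 → (power k m).Reachable x y := by
    intro x y hxy
    by_cases h : x = y
    · rw [h]
    · exact (hadj x.1 x ((hmem _ _).2 rfl) y ((hmem _ _).2 hxy.symm) h).reachable
  have hnext : ∀ (n : ℕ) (hn : n < m) (x : Fin m × Fin (k + 2)) (h0 : 0 < m),
      x.1 = ⟨n, hn⟩ → (power k m).Reachable (⟨0, h0⟩, 0) x := by
    intro n
    induction n with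
    | zero =>
      intro hn x h0 hx
      exact hrow _ _ hx.symm
    | succ n ih =>
      intro hn x h0 hx
      have h1 := ih (by omega) (⟨n, by omega⟩, Fin.last (k + 1)) h0 rfl
      have h2 : (power k m).Adj (⟨n, by omega⟩, Fin.last (k + 1)) (⟨n + 1, hn⟩, 0) := by
        refine ⟨?_, ?_, ?_⟩
        · intro h
          have := congrArg (fun z : Fin m × Fin (k + 2) => z.1.val) h
          simp only at this
          omega
        · simp only [Fin.val_last, Fin.val_zero]
          rw [Nat.succ_mul]
          omega
        · simp only [Fin.val_last, Fin.val_zero]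
          rw [Nat.succ_mul]
          omega
      exact (h1.trans h2.reachable).trans (hrow _ _ hx.symm)
  have hpack : IsPack k (power k m) (univ.image g) := by
    refine ⟨?_, ?_, ?_⟩
    · intro K hK
      obtain ⟨i, _, rfl⟩ := mem_image.1 hK
      rw [SimpleGraph.isNClique_iff]
      exact ⟨fun x hx y hy hxy => hadj i x hx y hy hxy, hcard i⟩
    · intro K hK L hL hne
      obtain ⟨i, _, rfl⟩ := mem_image.1 hK
      obtain ⟨j, _, rfl⟩ := mem_image.1 hL
      rw [disjoint_left]
      intro x hx hy
      rw [hmem] at hx hy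
      exact hne (by rw [← hx, ← hy])
    · intro K _ L _ x _ y _
      have h0 : 0 < m := by have := x.1.isLt; omega
      have h1 := hnext x.1.val x.1.isLt x h0 rfl
      have h2 := hnext y.1.val y.1.isLt y h0 rfl
      exact h1.symm.trans h2
  have := le_nu hpack
  rw [hc] at this
  exact this

lemma bandwidth_below (k : ℕ) : bandwidth.StrictlyBelow (fk k) := by
  constructor
  · exact ⟨id, fun V G _ => le_max_left _ _⟩
  · rintro ⟨h, hh⟩
    obtain ⟨B, hB⟩ : ∃ B, ∀ j ≤ k + 1, h j ≤ B :=
      ⟨(range (k + 2)).sup h, fun j hj => le_sup (f := h) (mem_range.2 (by omega))⟩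
    have h1 := hh _ (power k (B + 1)) inferInstance
    have h2 := hB _ (power_bw k (B + 1))
    have h3 := power_nu k (B + 1)
    have h4 : nu k _ (power k (B + 1)) ≤ (fk k).val _ (power k (B + 1)) := le_max_right _ _
    have h5 : bandwidth.val _ (power k (B + 1)) = bwOf _ (power k (B + 1)) := rfl
    rw [h5] at h1
    omega

/-- a reduction sequence of a finite graph consists of finite trigraphs -/
lemma finite_seq {V : Type} [Finite V] {G : SimpleGraph V} {T : ℕ → Tri} (h0 : T 0 = ⟨V, G, ⊥⟩)
    (hT : ∀ i, i + 1 < Nat.card V → IsContraction (T i) (T (i + 1))) :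
    ∀ i, i < Nat.card V → Finite (T i).V := by
  intro i
  induction i with
  | zero => intro _; rw [h0]; infer_instance
  | succ i ih =>
    intro hi
    have := ih (by omega)
    obtain ⟨u, v, p, _, hp, _⟩ := hT i hi
    exact Finite.of_surjective p hp

lemma reduced_of_le {f g : Param} {h : ℕ → ℕ} {V : Type} [Finite V] {G : SimpleGraph V} {k : ℕ}
    (hfg : ∀ (W : Type) (H : SimpleGraph W), Finite W → g.val W H ≤ k → f.val W H ≤ h k)
    (hG : ReducedLE g V G k) : ReducedLE f V G (h k) := by
  obtain ⟨T, h0, hT, hk⟩ := hG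
  refine ⟨T, h0, hT, ?_⟩
  intro i hi
  have := finite_seq h0 hT i hi
  exact hfg _ _ this (hk i hi)

/-- **Main theorem.** (1) For every `k` there is a continuous, subgraph-monotone, union-closed
parameter strictly above bandwidth that agrees with bandwidth on all graphs of bandwidth at most
`k`; in particular the reduced parameters have the same values up to `k`. (2) For a class of finite
graphs, bounded reduced bandwidth is equivalent to the existence of a continuous parameter strictly
above bandwidth with bounded reduced value. -/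
theorem main :
    (∀ k : ℕ, ∃ f : Param, f.Continuous ∧ f.Monotone ∧ f.UnionClosed ∧
      bandwidth.StrictlyBelow f ∧
      (∀ (V : Type) (G : SimpleGraph V), Finite V → bandwidth.val V G ≤ k →
        f.val V G = bandwidth.val V G) ∧
      (∀ (V : Type) (G : SimpleGraph V), Finite V → ∀ j ≤ k,
        (ReducedLE f V G j ↔ ReducedLE bandwidth V G j))) ∧
    (∀ C : (V : Type) → SimpleGraph V → Prop, (∀ V G, C V G → Finite V) →
      ((∃ f : Param, f.Continuous ∧ bandwidth.StrictlyBelow f ∧ BoundedReduced f C) ↔
        BoundedReduced bandwidth C)) := by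
  have hone : ∀ k : ℕ, ∀ (V : Type) (G : SimpleGraph V), Finite V → ∀ j ≤ k,
        (ReducedLE (fk k) V G j ↔ ReducedLE bandwidth V G j) := by
    intro k V G hV j hj
    constructor
    · intro h
      exact reduced_of_le (h := id) (fun W H hW hH => (le_max_left _ _).trans hH) h
    · intro h
      refine reduced_of_le (h := id) (fun W H hW hH => ?_) h
      have hH' : bwOf W H ≤ j := hH
      rw [fk_eq (hH'.trans hj)]
      exact hH'
  refine ⟨?_, ?_⟩
  · intro k
    exact ⟨fk k, fk_continuous k, fk_monotone k, fk_union k, bandwidth_below k,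
      fun V G hV h => fk_eq h, hone k⟩
  · intro C hC
    constructor
    · rintro ⟨f, _, ⟨⟨h, hh⟩, _⟩, k, hk⟩
      obtain ⟨B, hB⟩ : ∃ B, ∀ j ≤ k, h j ≤ B :=
        ⟨(range (k + 1)).sup h, fun j hj => le_sup (f := h) (mem_range.2 (by omega))⟩
      refine ⟨B, ?_⟩
      intro V G hG
      have := hC V G hG
      exact reduced_of_le (h := fun _ => B)
        (fun W H hW hH => (hh W H hW).trans (hB _ hH)) (hk V G hG)
    · rintro ⟨k, hk⟩
      refine ⟨fk k, fk_continuous k, bandwidth_below k, k, ?_⟩
      intro V G hG
      exact (hone k V G (hC V G hG) k le_rfl).2 (hk V G hG)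

end Q109.RedBw
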