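import Pool.Agent.Q109.RedBw.Bw

/-! Packings of cliques in one component. -/

set_option autoImplicit false

namespace Q109.RedBw

open Finset

variable {V W : Type}

/-- `P` is a set of pairwise disjoint cliques with `k + 2` vertices, all in one component -/
def IsPack (k : ℕ) (G : SimpleGraph V) (P : Finset (Finset V)) : Prop :=
  (∀ K ∈ P, G.IsNClique (k + 2) K) ∧ (∀ K ∈ P, ∀ L ∈ P, K ≠ L → Disjoint K L) ∧
    (∀ K ∈ P, ∀ L ∈ P, ∀ x ∈ K, ∀ y ∈ L, G.Reachable x y)

/-- the largest number of pairwise disjoint cliques with `k + 2` vertices in one component -/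
noncomputable def nu (k : ℕ) (V : Type) (G : SimpleGraph V) : ℕ :=
  sSup {m : ℕ | ∃ P : Finset (Finset V), P.card = m ∧ IsPack k G P}

lemma nu_bdd (k : ℕ) [Finite V] (G : SimpleGraph V) :
    BddAbove {m : ℕ | ∃ P : Finset (Finset V), P.card = m ∧ IsPack k G P} := by
  classical
  have := Fintype.ofFinite V
  refine ⟨Fintype.card (Finset V), ?_⟩
  rintro m ⟨P, rfl, _⟩
  exact card_le_univ P

lemma le_nu {k : ℕ} [Finite V] {G : SimpleGraph V} {P : Finset (Finset V)} (h : IsPack k G P) :
    P.card ≤ nu k V G :=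
  le_csSup (nu_bdd k G) ⟨P, rfl, h⟩

lemma isPack_empty (k : ℕ) (G : SimpleGraph V) : IsPack k G ∅ := by
  refine ⟨?_, ?_, ?_⟩ <;> intro K hK <;> exact absurd hK (notMem_empty K)

lemma nu_le {k : ℕ} [Finite V] {G : SimpleGraph V} {m : ℕ}
    (h : ∀ P : Finset (Finset V), IsPack k G P → P.card ≤ m) : nu k V G ≤ m := by
  apply csSup_le
  · exact ⟨0, ∅, card_empty, isPack_empty k G⟩
  · rintro _ ⟨P, rfl, hP⟩
    exact h P hP

lemma IsPack.subset {k : ℕ} {G : SimpleGraph V} {P Q : Finset (Finset V)} (h : IsPack k G P)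
    (hQ : Q ⊆ P) : IsPack k G Q :=
  ⟨fun K hK => h.1 K (hQ hK), fun K hK L hL => h.2.1 K (hQ hK) L (hQ hL),
    fun K hK L hL => h.2.2 K (hQ hK) L (hQ hL)⟩

/-- monotonicity -/
lemma nu_mono (k : ℕ) [Finite W] (G : SimpleGraph V) (H : SimpleGraph W) (φ : V → W)
    (hφ : Function.Injective φ) (h : ∀ x y, G.Adj x y → H.Adj (φ x) (φ y)) :
    nu k V G ≤ nu k W H := by
  classical
  have : Finite V := Finite.of_injective φ hφ
  apply nu_le
  intro P hP
  set f : V ↪ W := ⟨φ, hφ⟩ with hf
  have hc : (P.image (fun K => K.map f)).card = P.card :=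
    card_image_of_injective _ (map_injective f)
  rw [← hc]
  apply le_nu
  have hreach : ∀ x y, G.Reachable x y → H.Reachable (φ x) (φ y) := by
    intro x y hxy
    exact hxy.map (⟨φ, fun {a b} hab => h a b hab⟩ : G →g H)
  refine ⟨?_, ?_, ?_⟩
  · intro K' hK'
    obtain ⟨K, hK, rfl⟩ := mem_image.1 hK'
    rw [SimpleGraph.isNClique_iff]
    have h1 := hP.1 K hK
    rw [SimpleGraph.isNClique_iff] at h1
    refine ⟨?_, by rw [card_map]; exact h1.2⟩
    intro x hx y hy hxy
    rw [mem_coe, mem_map] at hx hy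
    obtain ⟨a, ha, rfl⟩ := hx
    obtain ⟨b, hb, rfl⟩ := hy
    apply h
    apply h1.1 ha hb
    rintro rfl
    exact hxy rfl
  · intro K' hK' L' hL' hne
    obtain ⟨K, hK, rfl⟩ := mem_image.1 hK'
    obtain ⟨L, hL, rfl⟩ := mem_image.1 hL'
    have h1 := hP.2.1 K hK L hL (by rintro rfl; exact hne rfl)
    exact (disjoint_map f).2 h1
  · intro K' hK' L' hL' x hx y hy
    obtain ⟨K, hK, rfl⟩ := mem_image.1 hK'
    obtain ⟨L, hL, rfl⟩ := mem_image.1 hL'
    rw [mem_map] at hx hy
    obtain ⟨a, ha, rfl⟩ := hx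
    obtain ⟨b, hb, rfl⟩ := hy
    exact hreach a b (hP.2.2 K hK L hL a ha b hb)

/-- no pack if the bandwidth is small -/
lemma nu_zero {k : ℕ} [Finite V] {G : SimpleGraph V} (h : bwOf V G ≤ k) : nu k V G = 0 := by
  apply Nat.le_zero.1
  apply nu_le
  intro P hP
  by_contra hcon
  obtain ⟨K, hK⟩ := card_pos.1 (by omega : 0 < P.card)
  have := bw_clique G (hP.1 K hK)
  omega

/-- adding an edge -/
lemma nu_edge (k : ℕ) [Finite V] (G : SimpleGraph V) (u v : V) (huv : u ≠ v) :
    nu k V G ≤ 3 * nu k V (G.deleteEdges {s(u, v)}) + 1 := by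
  classical
  set G' := G.deleteEdges {s(u, v)} with hG'
  apply nu_le
  intro P hP
  -- cliques not using the edge
  set P0 := P.filter (fun K => ¬ (u ∈ K ∧ v ∈ K)) with hP0
  have h1 : P.card ≤ P0.card + 1 := by
    have e := card_filter_add_card_filter_not (s := P) (fun K => ¬ (u ∈ K ∧ v ∈ K))
    have h2 : (P.filter (fun K => ¬ ¬ (u ∈ K ∧ v ∈ K))).card ≤ 1 := by
      apply card_le_one.2
      intro K hK L hL
      rw [mem_filter, not_not] at hK hL
      by_contra hne
      exact (disjoint_left.1 (hP.2.1 K hK.1 L hL.1 hne)) hK.2.1 hL.2.1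
    rw [← hP0] at e
    omega
  have hclq : ∀ K ∈ P0, G'.IsNClique (k + 2) K := by
    intro K hK
    rw [hP0, mem_filter] at hK
    have h2 := hP.1 K hK.1
    rw [SimpleGraph.isNClique_iff] at h2 ⊢
    refine ⟨?_, h2.2⟩
    intro x hx y hy hxy
    rw [hG', SimpleGraph.deleteEdges_adj]
    refine ⟨h2.1 hx hy hxy, ?_⟩
    rw [Set.mem_singleton_iff, Sym2.eq_iff]
    rintro (⟨rfl, rfl⟩ | ⟨rfl, rfl⟩)
    · exact hK.2 ⟨hx, hy⟩
    · exact hK.2 ⟨hy, hx⟩
  have hin : ∀ K ∈ P0, ∀ x ∈ K, ∀ y ∈ K, G'.Reachable x y := by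
    intro K hK x hx y hy
    by_cases hxy : x = y
    · rw [hxy]
    · exact ((hclq K hK).isClique hx hy hxy).reachable
  -- the cliques reachable from a given vertex
  have hz : ∀ z : V, (P0.filter (fun K => ∃ y ∈ K, G'.Reachable z y)).card ≤ nu k V G' := by
    intro z
    apply le_nu
    refine ⟨?_, ?_, ?_⟩
    · intro K hK
      exact hclq K (mem_filter.1 hK).1
    · intro K hK L hL hne
      exact hP.2.1 K (mem_filter.1 (mem_filter.1 hK).1).1 L (mem_filter.1 (mem_filter.1 hL).1).1 hne
    · intro K hK L hL x hx y hy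
      rw [mem_filter] at hK hL
      obtain ⟨hK0, a, ha, hza⟩ := hK
      obtain ⟨hL0, b, hb, hzb⟩ := hL
      exact ((hin K hK0 x hx a ha).trans hza.symm).trans (hzb.trans (hin L hL0 b hb y hy))
  rcases P0.eq_empty_or_nonempty with h0 | ⟨K0, hK0⟩
  · rw [h0, card_empty] at h1
    omega
  have hK0' := (mem_filter.1 hK0).1
  obtain ⟨x0, hx0⟩ : K0.Nonempty := by
    have := (hclq K0 hK0).card_eq
    apply card_pos.1
    omega
  -- reachability splits
  have hsplit : ∀ y, G.Reachable x0 y → G'.Reachable x0 y ∨ G'.Reachable u y ∨ G'.Reachable v y := by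
    intro y hy
    obtain ⟨w⟩ := hy
    have key : ∀ (a b : V) (p : G.Walk a b),
        (G'.Reachable x0 a ∨ G'.Reachable u a ∨ G'.Reachable v a) →
        (G'.Reachable x0 b ∨ G'.Reachable u b ∨ G'.Reachable v b) := by
      intro a b p
      induction p with
      | nil => exact id
      | @cons a c b h p ih =>
        intro ha
        apply ih
        by_cases he : s(a, c) = s(u, v)
        · rw [Sym2.eq_iff] at he
          rcases he with ⟨rfl, rfl⟩ | ⟨rfl, rfl⟩
          · exact Or.inr (Or.inr SimpleGraph.Reachable.rfl)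
          · exact Or.inr (Or.inl SimpleGraph.Reachable.rfl)
        · have hac : G'.Reachable a c := by
            apply SimpleGraph.Adj.reachable
            rw [hG', SimpleGraph.deleteEdges_adj]
            exact ⟨h, he⟩
          rcases ha with h1 | h1 | h1
          · exact Or.inl (h1.trans hac)
          · exact Or.inr (Or.inl (h1.trans hac))
          · exact Or.inr (Or.inr (h1.trans hac))
    exact key _ _ w (Or.inl SimpleGraph.Reachable.rfl)
  have hcover : P0 ⊆ P0.filter (fun K => ∃ y ∈ K, G'.Reachable x0 y) ∪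
      (P0.filter (fun K => ∃ y ∈ K, G'.Reachable u y) ∪
        P0.filter (fun K => ∃ y ∈ K, G'.Reachable v y)) := by
    intro K hK
    obtain ⟨y, hy⟩ : K.Nonempty := by
      have := (hclq K hK).card_eq
      apply card_pos.1
      omega
    have h2 := hsplit y (hP.2.2 K0 hK0' K (mem_filter.1 hK).1 x0 hx0 y hy)
    rw [mem_union, mem_union]
    rcases h2 with h3 | h3 | h3
    · exact Or.inl (mem_filter.2 ⟨hK, y, hy, h3⟩)
    · exact Or.inr (Or.inl (mem_filter.2 ⟨hK, y, hy, h3⟩))
    · exact Or.inr (Or.inr (mem_filter.2 ⟨hK, y, hy, h3⟩))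
  have h3 := (card_le_card hcover).trans ((card_union_le _ _).trans
    (Nat.add_le_add_left (card_union_le _ _) _))
  have a1 := hz x0
  have a2 := hz u
  have a3 := hz v
  omega

/-- adding an isolated vertex -/
lemma nu_isolated (k : ℕ) [Finite V] (G : SimpleGraph V) (v : V) (hv : ∀ w, ¬ G.Adj v w) :
    nu k V G ≤ nu k {x : V // x ≠ v} (G.induce {x : V | x ≠ v}) := by
  classical
  have := Fintype.ofFinite V
  apply nu_le
  intro P hP
  have hvK : ∀ K ∈ P, v ∉ K := by
    intro K hK hvK
    have h1 := hP.1 K hK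
    have h2 := h1.card_eq
    obtain ⟨w, hw, hwv⟩ := exists_mem_ne (by omega : 1 < K.card) v
    exact hv w (h1.isClique hvK hw hwv.symm)
  have hreach : ∀ x y : V, G.Reachable x y → ∀ (hx : x ≠ v) (hy : y ≠ v),
      (G.induce {x : V | x ≠ v}).Reachable (⟨x, hx⟩ : {x : V // x ≠ v}) ⟨y, hy⟩ := by
    intro x y ⟨w⟩
    induction w with
    | nil => intro hx hy; exact SimpleGraph.Reachable.rfl
    | @cons a c b h p ih =>
      intro hx hy
      have hc : c ≠ v := by rintro rfl; exact hv _ h.symm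
      refine SimpleGraph.Reachable.trans ?_ (ih hc hy)
      exact SimpleGraph.Adj.reachable (by exact h : (G.induce {x : V | x ≠ v}).Adj
        (⟨a, hx⟩ : {x : V // x ≠ v}) ⟨c, hc⟩)
  set g : Finset V → Finset {x : V // x ≠ v} := fun K => K.subtype (fun x => x ≠ v) with hg
  have hgK : ∀ K ∈ P, (g K).map (Function.Embedding.subtype _) = K := by
    intro K hK
    rw [hg]
    simp only [subtype_map]
    apply filter_true_of_mem
    rintro x hx rfl
    exact hvK K hK hx
  have hc : (P.image g).card = P.card := by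
    apply card_image_of_injOn
    intro K hK L hL hKL
    rw [← hgK K hK, ← hgK L hL, hKL]
  rw [← hc]
  apply le_nu
  refine ⟨?_, ?_, ?_⟩
  · intro K' hK'
    obtain ⟨K, hK, rfl⟩ := mem_image.1 hK'
    have h1 := hP.1 K hK
    rw [SimpleGraph.isNClique_iff] at h1 ⊢
    constructor
    · intro x hx y hy hxy
      rw [mem_coe, hg, mem_subtype] at hx hy
      exact h1.1 hx hy (fun h => hxy (Subtype.ext h))
    · have h2 := congrArg card (hgK K hK)
      rw [card_map] at h2
      rw [h2]
      exact h1.2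
  · intro K' hK' L' hL' hne
    obtain ⟨K, hK, rfl⟩ := mem_image.1 hK'
    obtain ⟨L, hL, rfl⟩ := mem_image.1 hL'
    have h1 := hP.2.1 K hK L hL (by rintro rfl; exact hne rfl)
    rw [disjoint_left] at h1 ⊢
    intro x hx hy
    rw [hg, mem_subtype] at hx hy
    exact h1 hx hy
  · intro K' hK' L' hL' x hx y hy
    obtain ⟨K, hK, rfl⟩ := mem_image.1 hK'
    obtain ⟨L, hL, rfl⟩ := mem_image.1 hL'
    rw [hg, mem_subtype] at hx hy
    exact hreach x.1 y.1 (hP.2.2 K hK L hL _ hx _ hy) x.2 y.2

/-- disjoint unions -/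
lemma nu_sum (k : ℕ) [Finite V] [Finite W] (G : SimpleGraph V) (H : SimpleGraph W) :
    nu k (V ⊕ W) (G ⊕g H) ≤ max (nu k V G) (nu k W H) := by
  classical
  have := Fintype.ofFinite V
  have := Fintype.ofFinite W
  apply nu_le
  intro P hP
  rcases P.eq_empty_or_nonempty with h0 | ⟨K0, hK0⟩
  · rw [h0, card_empty]; exact Nat.zero_le _
  have hne : ∀ K ∈ P, K.Nonempty := by
    intro K hK
    have := (hP.1 K hK).card_eq
    apply card_pos.1
    omega
  obtain ⟨x0, hx0⟩ := hne K0 hK0
  rcases x0 with a0 | b0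
  · -- everything on the left
    have hleft : ∀ z, (G ⊕g H).Reachable (Sum.inl a0) z → ∃ a, z = Sum.inl a ∧ G.Reachable a0 a := by
      rintro z ⟨w⟩
      have key : ∀ (p q : V ⊕ W) (w : (G ⊕g H).Walk p q),
          (∃ a, p = Sum.inl a ∧ G.Reachable a0 a) → ∃ a, q = Sum.inl a ∧ G.Reachable a0 a := by
        intro p q w
        induction w with
        | nil => exact id
        | @cons p r q h w ih =>
          rintro ⟨a, rfl, ha⟩
          apply ih
          rcases r with c | c
          · exact ⟨c, rfl, ha.trans (SimpleGraph.sum_adj_inl.1 h).reachable⟩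
          · exact absurd h (SimpleGraph.not_adj_sum_inl_inr _ _)
      exact key _ _ w ⟨a0, rfl, SimpleGraph.Reachable.rfl⟩
    have hall : ∀ K ∈ P, ∀ z ∈ K, ∃ a, z = Sum.inl a ∧ G.Reachable a0 a :=
      fun K hK z hz => hleft z (hP.2.2 K0 hK0 K hK _ hx0 z hz)
    set g : Finset (V ⊕ W) → Finset V := fun K => univ.filter (fun a => Sum.inl a ∈ K) with hg
    have hgK : ∀ K ∈ P, (g K).map Function.Embedding.inl = K := by
      intro K hK
      ext z
      rw [mem_map]
      constructor
      · rintro ⟨a, ha, rfl⟩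
        rw [hg, mem_filter] at ha
        exact ha.2
      · intro hz
        obtain ⟨a, rfl, _⟩ := hall K hK z hz
        exact ⟨a, by rw [hg, mem_filter]; exact ⟨mem_univ _, hz⟩, rfl⟩
    have hc : (P.image g).card = P.card := by
      apply card_image_of_injOn
      intro K hK L hL hKL
      rw [← hgK K hK, ← hgK L hL, hKL]
    rw [← hc]
    refine le_trans ?_ (le_max_left _ _)
    apply le_nu
    refine ⟨?_, ?_, ?_⟩
    · intro K' hK'
      obtain ⟨K, hK, rfl⟩ := mem_image.1 hK'
      have h1 := hP.1 K hK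
      rw [SimpleGraph.isNClique_iff] at h1 ⊢
      constructor
      · intro x hx y hy hxy
        rw [mem_coe, hg, mem_filter] at hx hy
        exact SimpleGraph.sum_adj_inl.1 (h1.1 hx.2 hy.2 (fun h => hxy (Sum.inl_injective h)))
      · have h2 := congrArg card (hgK K hK)
        rw [card_map] at h2
        rw [h2]
        exact h1.2
    · intro K' hK' L' hL' hne
      obtain ⟨K, hK, rfl⟩ := mem_image.1 hK'
      obtain ⟨L, hL, rfl⟩ := mem_image.1 hL'
      have h1 := hP.2.1 K hK L hL (by rintro rfl; exact hne rfl)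
      rw [disjoint_left] at h1 ⊢
      intro x hx hy
      rw [hg, mem_filter] at hx hy
      exact h1 hx.2 hy.2
    · intro K' hK' L' hL' x hx y hy
      obtain ⟨K, hK, rfl⟩ := mem_image.1 hK'
      obtain ⟨L, hL, rfl⟩ := mem_image.1 hL'
      rw [hg, mem_filter] at hx hy
      obtain ⟨a, ha, hra⟩ := hall K hK _ hx.2
      obtain ⟨b, hb, hrb⟩ := hall L hL _ hy.2
      rw [Sum.inl.injEq] at ha hb
      subst ha hb
      exact hra.symm.trans hrb
  · have hright : ∀ z, (G ⊕g H).Reachable (Sum.inr b0) z →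
        ∃ a, z = Sum.inr a ∧ H.Reachable b0 a := by
      rintro z ⟨w⟩
      have key : ∀ (p q : V ⊕ W) (w : (G ⊕g H).Walk p q),
          (∃ a, p = Sum.inr a ∧ H.Reachable b0 a) → ∃ a, q = Sum.inr a ∧ H.Reachable b0 a := by
        intro p q w
        induction w with
        | nil => exact id
        | @cons p r q h w ih =>
          rintro ⟨a, rfl, ha⟩
          apply ih
          rcases r with c | c
          · exact absurd h.symm (SimpleGraph.not_adj_sum_inl_inr _ _)
          · exact ⟨c, rfl, ha.trans (SimpleGraph.sum_adj_inr.1 h).reachable⟩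
      exact key _ _ w ⟨b0, rfl, SimpleGraph.Reachable.rfl⟩
    have hall : ∀ K ∈ P, ∀ z ∈ K, ∃ a, z = Sum.inr a ∧ H.Reachable b0 a :=
      fun K hK z hz => hright z (hP.2.2 K0 hK0 K hK _ hx0 z hz)
    set g : Finset (V ⊕ W) → Finset W := fun K => univ.filter (fun a => Sum.inr a ∈ K) with hg
    have hgK : ∀ K ∈ P, (g K).map Function.Embedding.inr = K := by
      intro K hK
      ext z
      rw [mem_map]
      constructor
      · rintro ⟨a, ha, rfl⟩
        rw [hg, mem_filter] at ha
        exact ha.2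
      · intro hz
        obtain ⟨a, rfl, _⟩ := hall K hK z hz
        exact ⟨a, by rw [hg, mem_filter]; exact ⟨mem_univ _, hz⟩, rfl⟩
    have hc : (P.image g).card = P.card := by
      apply card_image_of_injOn
      intro K hK L hL hKL
      rw [← hgK K hK, ← hgK L hL, hKL]
    rw [← hc]
    refine le_trans ?_ (le_max_right _ _)
    apply le_nu
    refine ⟨?_, ?_, ?_⟩
    · intro K' hK'
      obtain ⟨K, hK, rfl⟩ := mem_image.1 hK'
      have h1 := hP.1 K hK
      rw [SimpleGraph.isNClique_iff] at h1 ⊢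
      constructor
      · intro x hx y hy hxy
        rw [mem_coe, hg, mem_filter] at hx hy
        exact SimpleGraph.sum_adj_inr.1 (h1.1 hx.2 hy.2 (fun h => hxy (Sum.inr_injective h)))
      · have h2 := congrArg card (hgK K hK)
        rw [card_map] at h2
        rw [h2]
        exact h1.2
    · intro K' hK' L' hL' hne
      obtain ⟨K, hK, rfl⟩ := mem_image.1 hK'
      obtain ⟨L, hL, rfl⟩ := mem_image.1 hL'
      have h1 := hP.2.1 K hK L hL (by rintro rfl; exact hne rfl)
      rw [disjoint_left] at h1 ⊢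
      intro x hx hy
      rw [hg, mem_filter] at hx hy
      exact h1 hx.2 hy.2
    · intro K' hK' L' hL' x hx y hy
      obtain ⟨K, hK, rfl⟩ := mem_image.1 hK'
      obtain ⟨L, hL, rfl⟩ := mem_image.1 hL'
      rw [hg, mem_filter] at hx hy
      obtain ⟨a, ha, hra⟩ := hall K hK _ hx.2
      obtain ⟨b, hb, hrb⟩ := hall L hL _ hy.2
      rw [Sum.inr.injEq] at ha hb
      subst ha hb
      exact hra.symm.trans hrb

end Q109.RedBw
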